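import Mathlib
import Pool.Agent.N558.Main
import Pool.Agent.N558.N0Def

/-!
# `n(K) = n₀(K)` for every knot
-/

set_option autoImplicit false

namespace Pool.Agent.Results.MP_800ada_gt.ConditionDropped

open Pool.Agent.R799 Pool.Agent.N558 Matrix

/-- Let `V` be the Seifert matrix of a knot `K` (a square integer matrix of size `2g` with
`det (V - Vᵀ) = 1`). For every size `k`, the Blanchfield pairing of `K` is presented by a hermitian
`k × k` matrix if and only if it is presented by a hermitian `k × k` matrix `A` for which `A(1)` is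
congruent over `ℤ` to a diagonal matrix with entries `±1`. In particular `n(K) = n₀(K)`. -/
theorem result (g : ℕ) (V : Matrix (Fin (2 * g)) (Fin (2 * g)) ℤ) (hV : (V - Vᵀ).det = 1) :
    (∀ k : ℕ, (∃ A : Matrix (Fin k) (Fin k) Lam, PresentsBlanchfield A V) ↔
      ∃ A : Matrix (Fin k) (Fin k) Lam, PresentsBlanchfield A V ∧
        CongruentToDiagonal (atOne A)) ∧
    nInv V = n0Inv V := by
  have hu : IsUnit (V - Vᵀ).det := by rw [hV]; exact isUnit_one
  have key : ∀ k : ℕ, (∃ A : Matrix (Fin k) (Fin k) Lam, PresentsBlanchfield A V) ↔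
      ∃ A : Matrix (Fin k) (Fin k) Lam, PresentsBlanchfield A V ∧
        CongruentToDiagonal (atOne A) := by
    intro k
    constructor
    · rintro ⟨A, hA⟩
      exact presents_iff V hu A hA
    · rintro ⟨A, hA, -⟩
      exact ⟨A, hA⟩
  refine ⟨key, ?_⟩
  unfold nInv n0Inv
  congr 1
  ext k
  exact (key k).symm

end Pool.Agent.Results.MP_800ada_gt.ConditionDropped
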